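import Pool.Agent.Helper17.OD.GoalsGM

/-!
# Packet HSZ: small hulls have small order type

Every element of the closure is the value of a finite program for a stack machine whose
instructions are the ordinals of the base set and the natural numbers.
-/

set_option autoImplicit false

namespace Pool.Agent.Helper17.OD.PkHSZ

open Set
open Cardinal hiding univ

local instance neT : Nonempty T := ⟨.nat 0⟩

/-- Witness at the inner level. -/
def PI (c b e x : T) : Prop := ∃ (b' : O) (φ : Code), b = .ord b' ∧ c = Tr.ofCode φ ∧ IsW b' φ e x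

/-- Witness at the top level. -/
def PT (a : O) (c e x : T) : Prop := ∃ φ : Code, c = Tr.ofCode φ ∧ IsW a φ e x

/-- One instruction of the stack machine. -/
noncomputable def step (a : O) {A : Set O} (s : List T) (k : A ⊕ ℕ) : List T :=
  match k, s with
  | .inl x, s => .ord x.1 :: s
  | .inr 0, t :: s' :: s => .pr s' t :: s
  | .inr 1, t :: s => t.fst :: s
  | .inr 2, t :: s => t.snd :: s
  | .inr 3, e :: b :: c :: s => Classical.epsilon (PI c b e) :: s
  | .inr 4, e :: c :: s => Classical.epsilon (PT a c e) :: s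
  | .inr (n + 5), s => .nat n :: s
  | _, _ => []

/-- The program `l` produces the tree `t`. -/
def Gen (a : O) {A : Set O} (l : List (A ⊕ ℕ)) (t : T) : Prop :=
  ∀ s : List T, l.foldl (step a) s = t :: s

theorem gen_nat (a : O) {A : Set O} (n : ℕ) : ∃ l : List (A ⊕ ℕ), Gen a l (.nat n) :=
  ⟨[.inr (n + 5)], fun _ => rfl⟩

theorem gen_ord (a : O) {A : Set O} {x : O} (hx : x ∈ A) :
    ∃ l : List (A ⊕ ℕ), Gen a l (.ord x) :=
  ⟨[.inl ⟨x, hx⟩], fun _ => rfl⟩

theorem gen_pr {a : O} {A : Set O} {s t : T} (hs : ∃ l : List (A ⊕ ℕ), Gen a l s)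
    (ht : ∃ l : List (A ⊕ ℕ), Gen a l t) : ∃ l : List (A ⊕ ℕ), Gen a l (.pr s t) := by
  obtain ⟨l1, h1⟩ := hs
  obtain ⟨l2, h2⟩ := ht
  refine ⟨l1 ++ l2 ++ [.inr 0], fun r => ?_⟩
  rw [List.foldl_append, List.foldl_append, h1, h2]
  rfl

theorem gen_fst {a : O} {A : Set O} {t : T} (ht : ∃ l : List (A ⊕ ℕ), Gen a l t) :
    ∃ l : List (A ⊕ ℕ), Gen a l t.fst := by
  obtain ⟨l1, h1⟩ := ht
  refine ⟨l1 ++ [.inr 1], fun r => ?_⟩
  rw [List.foldl_append, h1]
  rfl

theorem gen_snd {a : O} {A : Set O} {t : T} (ht : ∃ l : List (A ⊕ ℕ), Gen a l t) :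
    ∃ l : List (A ⊕ ℕ), Gen a l t.snd := by
  obtain ⟨l1, h1⟩ := ht
  refine ⟨l1 ++ [.inr 2], fun r => ?_⟩
  rw [List.foldl_append, h1]
  rfl

theorem gen_code (a : O) {A : Set O} (φ : Code) :
    ∃ l : List (A ⊕ ℕ), Gen a l (Tr.ofCode φ) := by
  induction φ with
  | nat n => exact gen_nat a n
  | ord x => exact x.elim
  | pr s t ih1 ih2 => exact gen_pr ih1 ih2

theorem isW_unique (hL : G_LTO.{2}) {b : O} {φ : Code} {e x y : T} (hx : IsW b φ e x)
    (hy : IsW b φ e y) : x = y := by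
  obtain ⟨-, -, h3⟩ := hL O
  rcases h3 x y with h | h | h
  · exact absurd h (hy.2.2 x hx.1 hx.2.1)
  · exact h
  · exact absurd h (hx.2.2 y hy.1 hy.2.1)

theorem ofCode_inj {c c' : Code} (h : (Tr.ofCode c : T) = Tr.ofCode c') : c = c' := by
  unfold Tr.ofCode at h
  induction c generalizing c' with
  | nat n =>
    cases c' with
    | nat n' => exact congrArg Tr.nat (Tr.nat.inj h)
    | ord a => exact a.elim
    | pr s t => cases h
  | ord a => exact a.elim
  | pr s t ih1 ih2 =>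
    cases c' with
    | nat n' => cases h
    | ord a => exact a.elim
    | pr s' t' =>
      obtain ⟨h1, h2⟩ := Tr.pr.inj h
      rw [ih1 h1, ih2 h2]

theorem eps_inner (hL : G_LTO.{2}) {b : O} {φ : Code} {e x : T} (h : IsW b φ e x) :
    Classical.epsilon (PI (Tr.ofCode φ) (.ord b) e) = x := by
  have h1 : PI (Tr.ofCode φ) (.ord b) e (Classical.epsilon (PI (Tr.ofCode φ) (.ord b) e)) :=
    Classical.epsilon_spec (p := PI (Tr.ofCode φ) (.ord b) e) ⟨x, b, φ, rfl, rfl, h⟩
  obtain ⟨b', ψ, hb, hc, hw⟩ := h1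
  obtain rfl := Tr.ord.inj hb
  obtain rfl := ofCode_inj hc
  exact isW_unique hL hw h

theorem eps_top (hL : G_LTO.{2}) {a : O} {φ : Code} {e x : T} (h : IsW a φ e x) :
    Classical.epsilon (PT a (Tr.ofCode φ) e) = x := by
  have h1 : PT a (Tr.ofCode φ) e (Classical.epsilon (PT a (Tr.ofCode φ) e)) :=
    Classical.epsilon_spec (p := PT a (Tr.ofCode φ) e) ⟨x, φ, rfl, h⟩
  obtain ⟨ψ, hc, hw⟩ := h1
  obtain rfl := ofCode_inj hc
  exact isW_unique hL hw h

/-- Every element of the closure is generated by a program. -/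
theorem gen_cl (hL : G_LTO.{2}) (a : O) (Q : Code → T → Prop) (A : Set O) (t : T)
    (h : TCl a Q A t) : ∃ l : List (A ⊕ ℕ), Gen a l t := by
  induction h with
  | nat n => exact gen_nat a n
  | base hx _ => exact gen_ord a hx
  | pr _ _ ih1 ih2 => exact gen_pr ih1 ih2
  | fst _ ih => exact gen_fst ih
  | snd _ ih => exact gen_snd ih
  | @inner b φ e x _ _ _ _ hw ih1 ih2 =>
    obtain ⟨l0, h0⟩ := gen_code a (A := A) φ
    obtain ⟨l1, h1⟩ := ih1
    obtain ⟨l2, h2⟩ := ih2
    refine ⟨l0 ++ l1 ++ l2 ++ [.inr 3], fun r => ?_⟩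
    rw [List.foldl_append, List.foldl_append, List.foldl_append, h0, h1, h2]
    show Classical.epsilon (PI (Tr.ofCode φ) (.ord b) e) :: r = x :: r
    rw [eps_inner hL hw]
  | @top φ e x _ _ hw ih =>
    obtain ⟨l0, h0⟩ := gen_code a (A := A) φ
    obtain ⟨l1, h1⟩ := ih
    refine ⟨l0 ++ l1 ++ [.inr 4], fun r => ?_⟩
    rw [List.foldl_append, List.foldl_append, h0, h1]
    show Classical.epsilon (PT a (Tr.ofCode φ) e) :: r = x :: r
    rw [eps_top hL hw]

/-- The hull injects into the programs. -/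
theorem mk_hull_le (hL : G_LTO.{2}) (a : O) (Q : Code → T → Prop) (A : Set O) :
    #(Hull a Q A) ≤ max ℵ₀ #A := by
  have h1 : ∀ x : Hull a Q A, ∃ l : List (A ⊕ ℕ), Gen a l (.ord x.1) :=
    fun x => gen_cl hL a Q A _ x.2
  choose g hg using h1
  have hinj : Function.Injective g := by
    intro x y hxy
    have e1 := hg x []
    rw [hxy, hg y []] at e1
    have e2 := (List.cons.inj e1).1
    exact Subtype.ext (Tr.ord.inj e2).symm
  calc #(Hull a Q A) ≤ #(List (A ⊕ ℕ)) := mk_le_of_injective hinj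
    _ ≤ max ℵ₀ #(A ⊕ ℕ) := mk_list_le_max _
    _ ≤ max ℵ₀ #A := by
        refine max_le (le_max_left _ _) ?_
        rw [mk_sum, mk_nat, lift_aleph0, lift_id']
        exact (add_le_max _ _).trans (max_le (max_le (le_max_right _ _) (le_max_left _ _))
          (le_max_left _ _))

theorem leaves_finite {L : Type*} (t : Tr L) : t.leaves.Finite := by
  induction t with
  | nat n => exact finite_empty
  | ord a => exact finite_singleton a
  | pr s t ih1 ih2 => exact ih1.union ih2

theorem thm (hL : G_LTO.{2}) : G_HSZ := by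
  intro c hc hc0 a d p Q hd a' f hf hr
  have h1 : #(Iio d ∪ p.leaves : Set O) < Cardinal.lift.{2} c := by
    refine (mk_union_le _ _).trans_lt (add_lt_of_lt (aleph0_le_lift.2 hc0.le) ?_ ?_)
    · rw [mk_Iio_ordinal, lift_lt]
      exact lt_ord.1 hd
    · exact ((leaves_finite p).lt_aleph0).trans_le (aleph0_le_lift.2 hc0.le)
  have h2 : #(Hull a Q (Iio d ∪ p.leaves)) < Cardinal.lift.{2} c :=
    (mk_hull_le hL a Q _).trans_lt (max_lt (aleph0_lt_lift.2 hc0) h1)
  rw [← hr, mk_image_eq_of_injOn _ _ hf.injOn, mk_Iio_ordinal, lift_lt] at h2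
  exact lt_ord.2 h2

end Pool.Agent.Helper17.OD.PkHSZ
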