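import Pool.Agent.Helper17.OD.GoalsCV

/-!
# Packet LIM: the rank function of `R` gives the limit
-/

set_option autoImplicit false

namespace Pool.Agent.Helper17.OD.PkLIM

open Set

theorem mle_trans (hL : G_LTO.{2}) {M M' M'' : T} (h1 : mle M M') (h2 : mle M' M'') :
    mle M M'' := by
  obtain ⟨-, tr, tri⟩ := hL O
  obtain ⟨a1, b1, c1⟩ := h1
  obtain ⟨a2, b2, c2⟩ := h2
  refine ⟨a1.trans a2, ?_, c1.trans c2⟩
  rcases b1 with b1 | ⟨b1, b1'⟩
  · rcases b2 with b2 | ⟨b2, b2'⟩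
    · exact Or.inl (tr _ _ _ b1 b2)
    · exact Or.inl (b2 ▸ b1)
  · rcases b2 with b2 | ⟨b2, b2'⟩
    · exact Or.inl (b1 ▸ b2)
    · refine Or.inr ⟨b1.trans b2, fun h => ?_⟩
      rcases tri (mQ M'').snd (mQ M').snd with h3 | h3 | h3
      · exact b2' h3
      · exact b1' (h3 ▸ h)
      · exact b1' (tr _ _ _ h3 h)

variable {I : Set T} {mt : T → T}

/-- Images of ordinals are ordinals. -/
theorem img (h : TSys I mt) {M M' : T} (hM : M ∈ I) (hM' : M' ∈ I) (hle : mle M M') {x : O}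
    (hx : x < mA (mt M)) : ∃ y : O, PJ (mt M) (mt M') (.ord x) (.ord y) ∧ y < mA (mt M') := by
  have him := h.im M hM M' hM' hle
  obtain ⟨t', ht⟩ := him.tot (.ord x) (ord_mem.2 hx)
  have ho := him.ord _ _ ht trivial
  cases t' with
  | nat n => exact ho.elim
  | ord y => exact ⟨y, ht, ord_mem.1 (him.dom _ _ ht).2⟩
  | pr s t => exact ho.elim

theorem mono' (h : TSys I mt) {M M' : T} (hM : M ∈ I) (hM' : M' ∈ I) (hle : mle M M')
    {x y x' y' : O} (hx : PJ (mt M) (mt M') (.ord x) (.ord x'))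
    (hy : PJ (mt M) (mt M') (.ord y) (.ord y')) (hxy : x < y) : x' < y' :=
  (h.im M hM M' hM' hle).mono _ _ _ _ hx hy hxy

theorem fn' (h : TSys I mt) {M M' : T} (hM : M ∈ I) (hM' : M' ∈ I) (hle : mle M M')
    {x y z : O} (hx : PJ (mt M) (mt M') (.ord x) (.ord y))
    (hy : PJ (mt M) (mt M') (.ord x) (.ord z)) : y = z :=
  Tr.ord.inj ((h.im M hM M' hM' hle).fn _ _ _ hx hy)

/-- A point and its image have the same predecessors. -/
theorem pred_iff (hL : G_LTO.{2}) (h : TSys I mt) {M M' : T} (hM : M ∈ I) (hM' : M' ∈ I)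
    (hle : mle M M') {x x' : O} (hx : PJ (mt M) (mt M') (.ord x) (.ord x')) (z : T) :
    Tr.pr z (.pr M (.ord x)) ∈ Rl I mt ↔ Tr.pr z (.pr M' (.ord x')) ∈ Rl I mt := by
  have hd := (h.im M hM M' hM' hle).dom _ _ hx
  have hd1 : x < mA (mt M) := ord_mem.1 hd.1
  have hd2 : x' < mA (mt M') := ord_mem.1 hd.2
  constructor
  · rintro ⟨N, hN, M1, hM1, w, x1, hw, hx1, he, M2, hM2, hN2, hM12, y, y', hy, hy', hlt⟩
    obtain ⟨e1, e2⟩ := Tr.pr.inj he
    obtain ⟨e3, e4⟩ := Tr.pr.inj e2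
    subst e3
    obtain rfl := Tr.ord.inj e4
    obtain ⟨M3, hM3, hM23, hM'3⟩ := h.dir M2 hM2 M' hM'
    have hy2 : y < mA (mt M2) := ord_mem.1 ((h.im N hN M2 hM2 hN2).dom _ _ hy).2
    have hy2' : y' < mA (mt M2) := ord_mem.1 ((h.im M hM M2 hM2 hM12).dom _ _ hy').2
    obtain ⟨y3, hy3, -⟩ := img h hM2 hM3 hM23 hy2
    obtain ⟨y3', hy3', -⟩ := img h hM2 hM3 hM23 hy2'
    obtain ⟨x3, hx3, -⟩ := img h hM' hM3 hM'3 hd2
    have h1 : y3 < y3' := mono' h hM2 hM3 hM23 hy3 hy3' hlt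
    have h2 : PJ (mt N) (mt M3) (.ord w) (.ord y3) := h.comp N hN M2 hM2 M3 hM3 hN2 hM23 _ _ _ hy hy3
    have h3 : PJ (mt M) (mt M3) (.ord x) (.ord y3') :=
      h.comp M hM M2 hM2 M3 hM3 hM12 hM23 _ _ _ hy' hy3'
    have h4 : PJ (mt M) (mt M3) (.ord x) (.ord x3) :=
      h.comp M hM M' hM' M3 hM3 hle hM'3 _ _ _ hx hx3
    have h5 : x3 = y3' := fn' h hM hM3 (mle_trans hL hle hM'3) h4 h3
    subst h5
    exact ⟨N, hN, M', hM', w, x', hw, hd2, by rw [e1], M3, hM3, mle_trans hL hN2 hM23, hM'3, y3, x3,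
      h2, hx3, h1⟩
  · rintro ⟨N, hN, M1, hM1, w, x1, hw, hx1, he, M2, hM2, hN2, hM12, y, y', hy, hy', hlt⟩
    obtain ⟨e1, e2⟩ := Tr.pr.inj he
    obtain ⟨e3, e4⟩ := Tr.pr.inj e2
    subst e3
    obtain rfl := Tr.ord.inj e4
    exact ⟨N, hN, M, hM, w, x, hw, hd1, by rw [e1], M2, hM2, hN2, mle_trans hL hle hM12, y, y', hy,
      h.comp M hM M' hM' M2 hM2 hle hM12 _ _ _ hx hy', hlt⟩

theorem thm (hRNK : G_RNK) (hL : G_LTO.{2}) : G_LIM := by
  intro k S S' I mt hS h hR hwf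
  obtain ⟨-, ρ, b, hb, hρb, hρ, -, -⟩ := hRNK k S S' hS (Rl I mt) hR hwf
  have hlt : ∀ y x, Tr.pr y x ∈ Rl I mt → ρ y < ρ x := fun y x hyx => (hρ x (ρ y)).2 ⟨y, hyx, le_rfl⟩
  -- all values below a value are values
  have hval : ∀ (c : O) (M : T) (x : O), M ∈ I → x < mA (mt M) → ρ (.pr M (.ord x)) = c →
      ∀ a ≤ c, ∃ M' ∈ I, ∃ x' < mA (mt M'), ρ (.pr M' (.ord x')) = a := by
    intro c
    induction c using WellFoundedLT.induction with
    | ind c ih =>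
      intro M x hM hx hc a ha
      rcases ha.lt_or_eq with ha | ha
      · rw [← hc] at ha
        obtain ⟨z, hz, hza⟩ := (hρ _ a).1 ha
        have hz2 := hlt _ _ hz
        obtain ⟨N, hN, M1, hM1, w, x1, hw, -, he, -⟩ := hz
        obtain ⟨e1, -⟩ := Tr.pr.inj he
        subst e1
        exact ih _ (hc ▸ hz2) N w hN hw rfl a hza
      · exact ⟨M, hM, x, hx, hc.trans ha.symm⟩
  let U : Set O := {l | ∀ M ∈ I, ∀ x < mA (mt M), ρ (.pr M (.ord x)) < l}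
  have hbU : b ∈ U := fun M _ x _ => hρb _
  have hU : U.Nonempty := ⟨b, hbU⟩
  have hlU : sInf U ∈ U := csInf_mem hU
  refine ⟨fun M x => ρ (.pr M (.ord x)), sInf U, ?_, ?_, ?_, ?_, ?_⟩
  · exact (csInf_le' hbU).trans_lt hb
  · intro M hM x hx y hy hxy
    obtain ⟨M', hM', hle, -⟩ := h.dir M hM M hM
    obtain ⟨x', hx', -⟩ := img h hM hM' hle hx
    obtain ⟨y', hy', -⟩ := img h hM hM' hle hy
    exact hlt _ _ ⟨M, hM, M, hM, x, y, hx, hy, rfl, M', hM', hle, hle, x', y', hx', hy',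
      mono' h hM hM' hle hx' hy' hxy⟩
  · exact fun M hM x hx => hlU M hM x hx
  · intro y hy
    have hy' : y ∉ U := fun h' => absurd hy (not_lt.2 (csInf_le' h'))
    have : ∃ M ∈ I, ∃ x < mA (mt M), y ≤ ρ (.pr M (.ord x)) := by
      by_contra hcon
      apply hy'
      intro M hM x hx
      by_contra hlt'
      exact hcon ⟨M, hM, x, hx, not_lt.1 hlt'⟩
    obtain ⟨M, hM, x, hx, hxy⟩ := this
    exact hval _ M x hM hx rfl y hxy
  · intro M hM M' hM' hle x x' hx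
    refine le_antisymm (le_of_forall_lt fun a ha => ?_) (le_of_forall_lt fun a ha => ?_)
    · obtain ⟨z, hz, hza⟩ := (hρ _ a).1 ha
      exact (hρ _ a).2 ⟨z, (pred_iff hL h hM hM' hle hx z).1 hz, hza⟩
    · obtain ⟨z, hz, hza⟩ := (hρ _ a).1 ha
      exact (hρ _ a).2 ⟨z, (pred_iff hL h hM hM' hle hx z).2 hz, hza⟩

end Pool.Agent.Helper17.OD.PkLIM
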