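import Pool.Agent.Helper17.OD.GoalsMA

/-!
# Packet HCT: `HC` is T-definable
-/

set_option autoImplicit false

namespace Pool.Agent.Helper17.OD.PkHCT

open Set

/-- `t` is a natural number. -/
def IsNat (t : T) : Prop := ¬ t.IsOrd ∧ t ≠ .pr t.fst t.snd

theorem isNat_iff (t : T) : IsNat t ↔ ∃ n : ℕ, t = .nat n := by
  constructor
  · rintro ⟨h1, h2⟩
    cases t with
    | nat n => exact ⟨n, rfl⟩
    | ord a => exact absurd trivial h1
    | pr s t => exact absurd rfl h2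
  · rintro ⟨n, rfl⟩
    exact ⟨fun h => h, fun h => by cases h⟩

theorem nat_mem_D (A : Set O) (n : ℕ) : (Tr.nat n : T) ∈ D A := by
  show (Tr.nat n : T).leaves ⊆ A
  exact empty_subset _

theorem pr_mem_D {A : Set O} {s t : T} : (Tr.pr s t) ∈ D A ↔ s ∈ D A ∧ t ∈ D A := by
  show s.leaves ∪ t.leaves ⊆ A ↔ _
  exact union_subset_iff

theorem fst_mem_D {A : Set O} {t : T} (h : t ∈ D A) : t.fst ∈ D A := by
  cases t with
  | nat n => exact nat_mem_D A 0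
  | ord a => exact nat_mem_D A 0
  | pr s t => exact (pr_mem_D.1 h).1

theorem snd_mem_D {A : Set O} {t : T} (h : t ∈ D A) : t.snd ∈ D A := by
  cases t with
  | nat n => exact nat_mem_D A 0
  | ord a => exact nat_mem_D A 0
  | pr s t => exact (pr_mem_D.1 h).2

theorem lmem_mem_D {A : Set O} {x l : T} (h : x.lmem l) (hl : l ∈ D A) : x ∈ D A := by
  induction l with
  | nat n => exact h.elim
  | ord a => exact h.elim
  | pr a l _ ih =>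
    rcases h with h | h
    · rw [h]
      exact (pr_mem_D.1 hl).1
    · exact ih h (pr_mem_D.1 hl).2

theorem ofCode_mem_D (A : Set O) (c : Code) : (Tr.ofCode c : T) ∈ D A := by
  unfold Tr.ofCode
  induction c with
  | nat n => exact nat_mem_D A n
  | ord a => exact a.elim
  | pr s t ih1 ih2 => exact pr_mem_D.2 ⟨ih1, ih2⟩

theorem ofCode_inj {c c' : Code} (h : (Tr.ofCode c : T) = Tr.ofCode c') : c = c' := by
  unfold Tr.ofCode at h
  induction c generalizing c' with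
  | nat n =>
    cases c' with
    | nat n' => exact congrArg Tr.nat (Tr.nat.inj h)
    | ord a => exact a.elim
    | pr s t => cases h
  | ord a => exact a.elim
  | pr s t ih1 ih2 =>
    cases c' with
    | nat n' => cases h
    | ord a => exact a.elim
    | pr s' t' =>
      obtain ⟨h1, h2⟩ := Tr.pr.inj h
      rw [ih1 h1, ih2 h2]

/-- The rule. -/
def Stp (m d : T) (X : T → Prop) (y : T) : Prop :=
  IsNat y ∨ (y = d ∨ (y = mP m ∨ ((y = .pr y.fst y.snd ∧ (X y.fst ∧ X y.snd)) ∨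
    ((∃ t, X t ∧ y = t.fst) ∨ ((∃ t, X t ∧ y = t.snd) ∨
      ((∃ s v u, X s ∧ (s.lt m.fst ∧ (X v ∧ IsWT s u v y))) ∨
        ∃ v u, X v ∧ ((∃ c : Code, u = Tr.ofCode c ∧ av (mQ m) c v) ∧ IsWT m.fst u v y)))))))

/-- The rule with bounded quantifiers. -/
def StB (a : O) (m d : T) (X : T → Prop) (y : T) : Prop :=
  IsNat y ∨ (y = d ∨ (y = mP m ∨ ((y = .pr y.fst y.snd ∧ (X y.fst ∧ X y.snd)) ∨
    ((∃ t ∈ D (Iio a), X t ∧ y = t.fst) ∨ ((∃ t ∈ D (Iio a), X t ∧ y = t.snd) ∨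
      ((∃ s ∈ D (Iio a), ∃ v ∈ D (Iio a), ∃ u ∈ D (Iio a),
          X s ∧ (s.lt m.fst ∧ (X v ∧ IsWT s u v y))) ∨
        ∃ v ∈ D (Iio a), ∃ u ∈ D (Iio a),
          X v ∧ ((∃ c : Code, u = Tr.ofCode c ∧ av (mQ m) c v) ∧ IsWT m.fst u v y)))))))

theorem IsWT.code {s u v y : T} (h : IsWT s u v y) (A : Set O) : u ∈ D A := by
  obtain ⟨_, c, _, rfl, _⟩ := h
  exact ofCode_mem_D A c

theorem stB_iff (a : O) (m d : T) (X : T → Prop) (hX : ∀ t, X t → t ∈ D (Iio a)) (y : T) :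
    StB a m d X y ↔ Stp m d X y := by
  unfold StB Stp
  refine or_congr Iff.rfl (or_congr Iff.rfl (or_congr Iff.rfl (or_congr Iff.rfl
    (or_congr ?_ (or_congr ?_ (or_congr ?_ ?_))))))
  · exact ⟨fun ⟨t, _, h⟩ => ⟨t, h⟩, fun ⟨t, h⟩ => ⟨t, hX t h.1, h⟩⟩
  · exact ⟨fun ⟨t, _, h⟩ => ⟨t, h⟩, fun ⟨t, h⟩ => ⟨t, hX t h.1, h⟩⟩
  · exact ⟨fun ⟨s, _, v, _, u, _, h⟩ => ⟨s, v, u, h⟩,
      fun ⟨s, v, u, h⟩ => ⟨s, hX s h.1, v, hX v h.2.2.1, u, IsWT.code h.2.2.2 _, h⟩⟩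
  · exact ⟨fun ⟨v, _, u, _, h⟩ => ⟨v, u, h⟩,
      fun ⟨v, u, h⟩ => ⟨v, hX v h.1, u, IsWT.code h.2.2 _, h⟩⟩

theorem stp_congr (m d : T) {X Y : T → Prop} (h : ∀ t, X t ↔ Y t) (y : T) :
    Stp m d X y ↔ Stp m d Y y := by
  have : X = Y := funext fun t => propext (h t)
  rw [this]

theorem stp_mono (m d : T) (X Y : T → Prop) (h : ∀ t, X t → Y t) (y : T) (hy : Stp m d X y) :
    Stp m d Y y := by
  unfold Stp at hy ⊢
  rcases hy with hy | hy | hy | ⟨h1, h2, h3⟩ | ⟨t, h1, h2⟩ | ⟨t, h1, h2⟩ | ⟨s, v, u, h1, h2, h3, h4⟩ |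
    ⟨v, u, h1, h2⟩
  · exact Or.inl hy
  · exact Or.inr (Or.inl hy)
  · exact Or.inr (Or.inr (Or.inl hy))
  · exact Or.inr (Or.inr (Or.inr (Or.inl ⟨h1, h _ h2, h _ h3⟩)))
  · exact Or.inr (Or.inr (Or.inr (Or.inr (Or.inl ⟨t, h _ h1, h2⟩))))
  · exact Or.inr (Or.inr (Or.inr (Or.inr (Or.inr (Or.inl ⟨t, h _ h1, h2⟩)))))
  · exact Or.inr (Or.inr (Or.inr (Or.inr (Or.inr (Or.inr
      (Or.inl ⟨s, v, u, h _ h1, h2, h _ h3, h4⟩))))))
  · exact Or.inr (Or.inr (Or.inr (Or.inr (Or.inr (Or.inr (Or.inr ⟨v, u, h _ h1, h2⟩))))))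

theorem stp_fin (m d : T) (X : T → Prop) (y : T) (hy : Stp m d X y) :
    ∃ F : Finset T, (∀ t ∈ F, X t) ∧ Stp m d (fun t => t ∈ F) y := by
  classical
  unfold Stp at hy
  rcases hy with hy | hy | hy | ⟨h1, h2, h3⟩ | ⟨t, h1, h2⟩ | ⟨t, h1, h2⟩ | ⟨s, v, u, h1, h2, h3, h4⟩ |
    ⟨v, u, h1, h2⟩
  · exact ⟨∅, by simp, Or.inl hy⟩
  · exact ⟨∅, by simp, Or.inr (Or.inl hy)⟩
  · exact ⟨∅, by simp, Or.inr (Or.inr (Or.inl hy))⟩
  · refine ⟨{y.fst, y.snd}, ?_, Or.inr (Or.inr (Or.inr (Or.inl ⟨h1, by simp, by simp⟩)))⟩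
    intro t ht
    rcases Finset.mem_insert.1 ht with rfl | ht
    · exact h2
    · rw [Finset.mem_singleton.1 ht]
      exact h3
  · refine ⟨{t}, ?_, Or.inr (Or.inr (Or.inr (Or.inr (Or.inl ⟨t, by simp, h2⟩))))⟩
    intro t' ht
    rw [Finset.mem_singleton.1 ht]
    exact h1
  · refine ⟨{t}, ?_, Or.inr (Or.inr (Or.inr (Or.inr (Or.inr (Or.inl ⟨t, by simp, h2⟩)))))⟩
    intro t' ht
    rw [Finset.mem_singleton.1 ht]
    exact h1
  · refine ⟨{s, v}, ?_, Or.inr (Or.inr (Or.inr (Or.inr (Or.inr (Or.inr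
      (Or.inl ⟨s, v, u, by simp, h2, by simp, h4⟩))))))⟩
    intro t ht
    rcases Finset.mem_insert.1 ht with rfl | ht
    · exact h1
    · rw [Finset.mem_singleton.1 ht]
      exact h3
  · refine ⟨{v}, ?_, Or.inr (Or.inr (Or.inr (Or.inr (Or.inr (Or.inr
      (Or.inr ⟨v, u, by simp, h2⟩))))))⟩
    intro t ht
    rw [Finset.mem_singleton.1 ht]
    exact h1

/-- The closure is closed under the rule. -/
theorem cl_closed (hCLA : G_CLA) {m d : T} {a : O} (hm : m.fst = .ord a)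
    (hp : mP m ∈ D (Iio a)) (hd : d ∈ D (Iio a)) (y : T)
    (hy : Stp m d (TCl a (av (mQ m)) (d.leaves ∪ (mP m).leaves)) y) :
    TCl a (av (mQ m)) (d.leaves ∪ (mP m).leaves) y := by
  obtain ⟨c1, c2, c3⟩ := hCLA a (av (mQ m)) (d.leaves ∪ (mP m).leaves)
  unfold Stp at hy
  rw [hm] at hy
  rcases hy with hy | hy | hy | ⟨h1, h2, h3⟩ | ⟨t, h1, h2⟩ | ⟨t, h1, h2⟩ | ⟨s, v, u, h1, h2, h3, h4⟩ |
    ⟨v, u, h1, ⟨c, h2, h3⟩, h4⟩
  · obtain ⟨n, rfl⟩ := (isNat_iff y).1 hy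
    exact .nat n
  · rw [hy, c1]
    exact fun x hx => c3 x (Or.inl hx) (hd hx)
  · rw [hy, c1]
    exact fun x hx => c3 x (Or.inr hx) (hp hx)
  · rw [h1]
    exact .pr h2 h3
  · rw [h2]
    exact .fst h1
  · rw [h2]
    exact .snd h1
  · obtain ⟨b, c, rfl, -, hv, hw⟩ := h4
    exact .inner h1 h2 h3 hv hw
  · obtain ⟨b, c', hb, hc', hv, hw⟩ := h4
    obtain rfl : a = b := Tr.ord.inj hb
    obtain rfl : c = c' := ofCode_inj (h2.symm.trans hc')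
    exact .top h1 h3 hw

theorem leaf_closed {X : T → Prop} (h1 : ∀ t, X t → X t.fst) (h2 : ∀ t, X t → X t.snd) :
    ∀ t, X t → ∀ x ∈ t.leaves, X (.ord x) := by
  intro t
  induction t with
  | nat n => intro _ x hx; exact hx.elim
  | ord a => intro h x hx; rw [mem_singleton_iff.1 hx]; exact h
  | pr s t ih1 ih2 =>
    intro h x hx
    rcases hx with hx | hx
    · exact ih1 (h1 _ h) x hx
    · exact ih2 (h2 _ h) x hx

/-- The closure is the least such set. -/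
theorem cl_least (hCLA : G_CLA) {m d : T} {a : O} (hm : m.fst = .ord a) (X : T → Prop)
    (hX : ∀ y, Stp m d X y → X y) (y : T)
    (hy : TCl a (av (mQ m)) (d.leaves ∪ (mP m).leaves) y) : X y := by
  obtain ⟨c1, c2, -⟩ := hCLA a (av (mQ m)) (d.leaves ∪ (mP m).leaves)
  have x1 : ∀ t, X t → X t.fst := fun t ht =>
    hX _ (Or.inr (Or.inr (Or.inr (Or.inr (Or.inl ⟨t, ht, rfl⟩)))))
  have x2 : ∀ t, X t → X t.snd := fun t ht =>
    hX _ (Or.inr (Or.inr (Or.inr (Or.inr (Or.inr (Or.inl ⟨t, ht, rfl⟩))))))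
  induction hy with
  | nat n => exact hX _ (Or.inl ((isNat_iff _).2 ⟨n, rfl⟩))
  | base hx _ =>
    rcases hx with hx | hx
    · exact leaf_closed x1 x2 d (hX _ (Or.inr (Or.inl rfl))) _ hx
    · exact leaf_closed x1 x2 (mP m) (hX _ (Or.inr (Or.inr (Or.inl rfl)))) _ hx
  | pr _ _ ih1 ih2 => exact hX _ (Or.inr (Or.inr (Or.inr (Or.inl ⟨rfl, ih1, ih2⟩))))
  | fst _ ih => exact x1 _ ih
  | snd _ ih => exact x2 _ ih
  | @inner b φ e x h1 h2 h3 h4 h5 ih1 ih2 =>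
    refine hX _ (Or.inr (Or.inr (Or.inr (Or.inr (Or.inr (Or.inr
      (Or.inl ⟨.ord b, e, Tr.ofCode φ, ih1, ?_, ih2, b, φ, rfl, rfl, h4, h5⟩)))))))
    rw [hm]
    exact h2
  | @top φ e x h1 h2 h3 ih =>
    refine hX _ (Or.inr (Or.inr (Or.inr (Or.inr (Or.inr (Or.inr
      (Or.inr ⟨e, Tr.ofCode φ, ih, ⟨φ, rfl, h2⟩, a, φ, hm, rfl, ?_, h3⟩)))))))
    exact fun x hx => c2 ((c1 e).1 h1 hx)

/-- The entries of `l` with a number smaller than `w`. -/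
def XB (a : O) (l w t : T) : Prop := ∃ k ∈ D (Iio a), IsNat k ∧ (k.lt w ∧ (Tr.pr k t).lmem l)

theorem xB_iff (a : O) (l : T) (n : ℕ) (t : T) :
    XB a l (.nat n) t ↔ ∃ k : ℕ, k < n ∧ (Tr.pr (.nat k) t).lmem l := by
  constructor
  · rintro ⟨k, -, hk, h1, h2⟩
    obtain ⟨j, rfl⟩ := (isNat_iff k).1 hk
    exact ⟨j, h1, h2⟩
  · rintro ⟨k, h1, h2⟩
    exact ⟨.nat k, nat_mem_D _ k, (isNat_iff _).2 ⟨k, rfl⟩, h1, h2⟩

/-- The derivation lists. -/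
def LB (a : O) (m d y l : T) : Prop :=
  (∃ w ∈ D (Iio a), IsNat w ∧ (Tr.pr w y).lmem l) ∧
    ∀ w ∈ D (Iio a), ∀ z ∈ D (Iio a), (IsNat w ∧ (Tr.pr w z).lmem l) →
      StB a m d (fun t => XB a l w t) z

theorem lB_iff (a : O) (m d y l : T) (hl : l ∈ D (Iio a)) :
    LB a m d y l ↔ ((∃ n : ℕ, (Tr.pr (.nat n) y).lmem l) ∧
      ∀ (n : ℕ) (z : T), (Tr.pr (.nat n) z).lmem l →
        Stp m d (fun t => ∃ k : ℕ, k < n ∧ (Tr.pr (.nat k) t).lmem l) z) := by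
  have hX : ∀ n : ℕ, ∀ t, XB a l (.nat n) t → t ∈ D (Iio a) := by
    rintro n t ⟨k, -, -, -, h⟩
    exact (pr_mem_D.1 (lmem_mem_D h hl)).2
  have hS : ∀ n : ℕ, ∀ z, StB a m d (fun t => XB a l (.nat n) t) z ↔
      Stp m d (fun t => ∃ k : ℕ, k < n ∧ (Tr.pr (.nat k) t).lmem l) z := fun n z =>
    (stB_iff a m d _ (hX n) z).trans (stp_congr m d (xB_iff a l n) z)
  constructor
  · rintro ⟨⟨w, -, hw, h1⟩, h2⟩
    obtain ⟨n, rfl⟩ := (isNat_iff w).1 hw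
    refine ⟨⟨n, h1⟩, fun n' z hz => ?_⟩
    exact (hS n' z).1 (h2 _ (nat_mem_D _ n') z (pr_mem_D.1 (lmem_mem_D hz hl)).2
      ⟨(isNat_iff _).2 ⟨n', rfl⟩, hz⟩)
  · rintro ⟨⟨n, h1⟩, h2⟩
    refine ⟨⟨.nat n, nat_mem_D _ n, (isNat_iff _).2 ⟨n, rfl⟩, h1⟩, ?_⟩
    rintro w - z - ⟨hw, hz⟩
    obtain ⟨n', rfl⟩ := (isNat_iff w).1 hw
    exact (hS n' z).2 (h2 n' z hz)

/-- The equivalence with the bounded form. -/
theorem hC_iff (hDLG : G_DLG) (hCLA : G_CLA) (a : O) (m d y : T) (hm : m ∈ D (Iio a)) :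
    HC m d y ↔ ((m.fst.IsOrd ∧ mP m ∈ D (Iio (mA m))) ∧ ((m.fst.IsOrd ∧ d ∈ D (Iio (mA m))) ∧
      ∃ l ∈ D (Iio a), LB a m d y l)) := by
  have key : m.fst.IsOrd → mP m ∈ D (Iio (mA m)) → d ∈ D (Iio (mA m)) →
      (TCl (mA m) (av (mQ m)) (d.leaves ∪ (mP m).leaves) y ↔ ∃ l ∈ D (Iio a), LB a m d y l) := by
    intro h1 h2 h3
    obtain ⟨b, hb⟩ : ∃ b, m.fst = .ord b := by
      cases hf : m.fst with
      | nat n => rw [hf] at h1; exact h1.elim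
      | ord b => exact ⟨b, rfl⟩
      | pr s t => rw [hf] at h1; exact h1.elim
    have hA : mA m = b := by
      unfold mA
      rw [hb]
      rfl
    have hba : b < a := by
      have h4 : m.fst ∈ D (Iio a) := fst_mem_D hm
      rw [hb] at h4
      exact h4 rfl
    rw [hA] at h2 h3 ⊢
    obtain ⟨c1, c2, -⟩ := hCLA b (av (mQ m)) (d.leaves ∪ (mP m).leaves)
    have h5 := hDLG (Stp m d) (stp_mono m d) (stp_fin m d)
      (TCl b (av (mQ m)) (d.leaves ∪ (mP m).leaves)) (cl_closed hCLA hb h2 h3)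
      (fun X hX y hy => cl_least hCLA hb X hX y hy) (Iio a)
      (fun y hy x hx => (c2 ((c1 y).1 hy hx)).trans hba) y
    rw [h5]
    constructor
    · rintro ⟨l, hl, h⟩
      exact ⟨l, hl, (lB_iff a m d y l hl).2 h⟩
    · rintro ⟨l, hl, h⟩
      exact ⟨l, hl, (lB_iff a m d y l hl).1 h⟩
  unfold HC
  constructor
  · rintro ⟨h1, h2, h3, h4⟩
    exact ⟨⟨h1, h2⟩, ⟨h1, h3⟩, (key h1 h2 h3).1 h4⟩
  · rintro ⟨⟨h1, h2⟩, ⟨_, h3⟩, h4⟩
    exact ⟨h1, h2, h3, (key h1 h2 h3).2 h4⟩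

theorem TDef.congr {P Q : O → T → Prop} (h : TDef P)
    (hPQ : ∀ a e, e ∈ D (Iio a) → (P a e ↔ Q a e)) : TDef Q := by
  obtain ⟨c, hc⟩ := h
  exact ⟨c, fun a e he => (hc a e he).trans (hPQ a e he)⟩

theorem tval_mem {A : Set O} : ∀ (c : Code) (e : T), e ∈ D A → tval c e ∈ D A
  | .nat 0, _, he => he
  | .nat (n + 1), _, _ => nat_mem_D A n
  | .pr (.nat 0) t, e, he => fst_mem_D (tval_mem t e he)
  | .pr (.nat 1) t, e, he => snd_mem_D (tval_mem t e he)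
  | .pr (.nat 2) (.pr s t), e, he => pr_mem_D.2 ⟨tval_mem s e he, tval_mem t e he⟩
  | .pr (.nat 2) (.nat _), _, _ => nat_mem_D A 0
  | .pr (.nat (_ + 3)) _, _, _ => nat_mem_D A 0
  | .pr (.pr _ _) _, _, _ => nat_mem_D A 0

theorem TT.mem {m : T → T} (hm : TT m) {A : Set O} {e : T} (he : e ∈ D A) : m e ∈ D A := by
  obtain ⟨c, hc⟩ := hm
  rw [← hc]
  exact tval_mem c e he

theorem thm (hTTC : G_TTC) (hTDC : G_TDC) (hTDC2 : G_TDC2) (hDLG : G_DLG) (hCLA : G_CLA) :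
    G_HCT := by
  intro m d x hm hd hx
  obtain ⟨tId, tNat, tCode, tFst, tSnd, tPr, tComp⟩ := hTTC
  obtain ⟨dEq, dLt, dOrd, dMem, dConst, dNot, dAnd, dOr, dImp, dIff, dEx, dAll, dSub, dTru,
    dTruc⟩ := hTDC
  obtain ⟨dInD, dIsW, dCode, dAv, dM, dD⟩ := hTDC2
  have tS : ∀ t, TT t → TT (fun p => t p.snd) := fun t ht => tComp t _ ht (tSnd _ tId)
  have tF : TT (fun p : T => p.fst) := tFst _ tId
  have dNat : ∀ t, TT t → TDef (fun _ e => IsNat (t e)) := fun t ht =>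
    dAnd _ _ (dNot _ (dOrd t ht)) (dNot _ (dEq _ _ ht (tPr _ _ (tFst _ ht) (tSnd _ ht))))
  have dX : ∀ l w t, TT l → TT w → TT t → TDef (fun a e => XB a (l e) (w e) (t e)) := by
    intro l w t hl hw ht
    refine dEx (fun _ e k => IsNat k ∧ (k.lt (w e) ∧ (Tr.pr k (t e)).lmem (l e))) ?_
    exact dAnd _ _ (dNat _ tF) (dAnd _ _ (dLt _ _ tF (tS w hw))
      (dMem _ _ (tPr _ _ tF (tS t ht)) (tS l hl)))
  have dSt : ∀ m d l w z, TT m → TT d → TT l → TT w → TT z →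
      TDef (fun a e => StB a (m e) (d e) (fun t => XB a (l e) (w e) t) (z e)) := by
    intro m d l w z hm hd hl hw hz
    refine dOr _ _ (dNat z hz) (dOr _ _ (dEq z d hz hd) (dOr _ _
      (dEq z _ hz (tSnd _ (tSnd _ (tSnd _ hm)))) (dOr _ _ (dAnd _ _
        (dEq z _ hz (tPr _ _ (tFst _ hz) (tSnd _ hz))) (dAnd _ _ (dX l w _ hl hw (tFst _ hz))
          (dX l w _ hl hw (tSnd _ hz)))) (dOr _ _ ?_ (dOr _ _ ?_ (dOr _ _ ?_ ?_))))))
    · refine dEx (fun a e t => XB a (l e) (w e) t ∧ z e = t.fst) ?_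
      exact dAnd _ _ (dX _ _ _ (tS l hl) (tS w hw) tF) (dEq _ _ (tS z hz) (tFst _ tF))
    · refine dEx (fun a e t => XB a (l e) (w e) t ∧ z e = t.snd) ?_
      exact dAnd _ _ (dX _ _ _ (tS l hl) (tS w hw) tF) (dEq _ _ (tS z hz) (tSnd _ tF))
    · refine dEx (fun a e s => ∃ v ∈ D (Iio a), ∃ u ∈ D (Iio a), XB a (l e) (w e) s ∧
        (s.lt (m e).fst ∧ (XB a (l e) (w e) v ∧ IsWT s u v (z e)))) ?_
      refine dEx (fun a e v => ∃ u ∈ D (Iio a), XB a (l e.snd) (w e.snd) e.fst ∧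
        (e.fst.lt (m e.snd).fst ∧ (XB a (l e.snd) (w e.snd) v ∧ IsWT e.fst u v (z e.snd)))) ?_
      refine dEx (fun a e u => XB a (l e.snd.snd) (w e.snd.snd) e.snd.fst ∧
        (e.snd.fst.lt (m e.snd.snd).fst ∧ (XB a (l e.snd.snd) (w e.snd.snd) e.fst ∧
          IsWT e.snd.fst u e.fst (z e.snd.snd)))) ?_
      have s1 : ∀ t, TT t → TT (fun p => t p.snd.snd.snd) := fun t ht =>
        tComp t _ ht (tSnd _ (tSnd _ (tSnd _ tId)))
      have f1 : TT (fun p : T => p.snd.fst) := tFst _ (tSnd _ tId)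
      have f2 : TT (fun p : T => p.snd.snd.fst) := tFst _ (tSnd _ (tSnd _ tId))
      exact dAnd _ _ (dX _ _ _ (s1 l hl) (s1 w hw) f2) (dAnd _ _ (dLt _ _ f2 (tFst _ (s1 m hm)))
        (dAnd _ _ (dX _ _ _ (s1 l hl) (s1 w hw) f1) (dIsW _ _ _ _ f2 tF f1 (s1 z hz))))
    · refine dEx (fun a e v => ∃ u ∈ D (Iio a), XB a (l e) (w e) v ∧
        ((∃ c : Code, u = Tr.ofCode c ∧ av (mQ (m e)) c v) ∧ IsWT (m e).fst u v (z e))) ?_
      refine dEx (fun a e u => XB a (l e.snd) (w e.snd) e.fst ∧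
        ((∃ c : Code, u = Tr.ofCode c ∧ av (mQ (m e.snd)) c e.fst) ∧
          IsWT (m e.snd).fst u e.fst (z e.snd))) ?_
      have s1 : ∀ t, TT t → TT (fun p => t p.snd.snd) := fun t ht =>
        tComp t _ ht (tSnd _ (tSnd _ tId))
      have f1 : TT (fun p : T => p.snd.fst) := tFst _ (tSnd _ tId)
      exact dAnd _ _ (dX _ _ _ (s1 l hl) (s1 w hw) f1) (dAnd _ _
        (dAv _ _ _ (tFst _ (tSnd _ (s1 m hm))) tF f1)
        (dIsW _ _ _ _ (tFst _ (s1 m hm)) tF f1 (s1 z hz)))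
  have dL : ∀ m d y l, TT m → TT d → TT y → TT l →
      TDef (fun a e => LB a (m e) (d e) (y e) (l e)) := by
    intro m d y l hm hd hy hl
    refine dAnd _ _ ?_ ?_
    · refine dEx (fun _ e w => IsNat w ∧ (Tr.pr w (y e)).lmem (l e)) ?_
      exact dAnd _ _ (dNat _ tF) (dMem _ _ (tPr _ _ tF (tS y hy)) (tS l hl))
    · refine dAll (fun a e w => ∀ z ∈ D (Iio a), (IsNat w ∧ (Tr.pr w z).lmem (l e)) →
        StB a (m e) (d e) (fun t => XB a (l e) w t) z) ?_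
      refine dAll (fun a e z => (IsNat e.fst ∧ (Tr.pr e.fst z).lmem (l e.snd)) →
        StB a (m e.snd) (d e.snd) (fun t => XB a (l e.snd) e.fst t) z) ?_
      have s1 : ∀ t, TT t → TT (fun p => t p.snd.snd) := fun t ht =>
        tComp t _ ht (tSnd _ (tSnd _ tId))
      have f1 : TT (fun p : T => p.snd.fst) := tFst _ (tSnd _ tId)
      exact dImp _ _ (dAnd _ _ (dNat _ f1) (dMem _ _ (tPr _ _ f1 tF) (s1 l hl)))
        (dSt _ _ _ _ _ (s1 m hm) (s1 d hd) (s1 l hl) f1 tF)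
  have hfin : TDef (fun a e => ((m e).fst.IsOrd ∧ mP (m e) ∈ D (Iio (mA (m e)))) ∧
      (((m e).fst.IsOrd ∧ d e ∈ D (Iio (mA (m e)))) ∧
        ∃ l ∈ D (Iio a), LB a (m e) (d e) (x e) l)) := by
    refine dAnd _ _ (dM m _ hm (tSnd _ (tSnd _ (tSnd _ hm)))) (dAnd _ _ (dM m d hm hd) ?_)
    refine dEx (fun a e l => LB a (m e) (d e) (x e) l) ?_
    exact dL _ _ _ _ (tS m hm) (tS d hd) (tS x hx) tF
  exact TDef.congr hfin fun a e he => (hC_iff hDLG hCLA a (m e) (d e) (x e) (TT.mem hm he)).symm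

end Pool.Agent.Helper17.OD.PkHCT
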